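import Pool.Agent.Helper4.CB.SYS

/-!
# CB: the ranks of the sieve

`exists_rank`: the places `q` of norm at most `z` get ranks, the sum of the densities over one rank
is at most `1 / 16`, a set with at most `2 r + 3` places of each rank `r` has product of norms at
most `z ^ K`, and there are `O (log log z)` ranks.
-/

set_option autoImplicit false

namespace Pool.Agent.Helper30.CB

open Finset Pool.Agent.Helper4.CB

/-- `∑ (2 r + 3) θ ^ r` -/
theorem sum_le_geom {θ : ℝ} (h0 : 0 < θ) (h1 : θ < 1) (R : ℕ) :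
    ∑ r ∈ range R, (2 * (r : ℝ) + 3) * θ ^ r ≤ (3 + 2 / (1 - θ)) / (1 - θ) := by
  have h2 : 0 < 1 - θ := by linarith
  set a : ℝ := 2 / (1 - θ) with ha
  set b : ℝ := (3 + a) / (1 - θ) with hb
  have ea : (1 - θ) * a = 2 := by
    rw [ha]
    field_simp
  have eb : (1 - θ) * b = 3 + a := by
    rw [hb]
    field_simp
  have ha0 : 0 < a := by
    rw [ha]
    positivity
  have hb0 : 0 < b := by
    rw [hb]
    positivity
  have key : ∀ R : ℕ, ∑ r ∈ range R, (2 * (r : ℝ) + 3) * θ ^ r ≤ b - θ ^ R * (a * R + b) := by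
    intro R
    induction R with
    | zero => simp
    | succ R ih =>
      rw [sum_range_succ]
      have h3 : 0 < θ ^ R := pow_pos h0 R
      have h4 : (2 * (R : ℝ) + 3) ≤ (a * R + b) - θ * (a * (R + 1) + b) := by
        have h5 : (a * R + b) - θ * (a * (R + 1) + b) =
            ((1 - θ) * a) * R + ((1 - θ) * b - a) + (1 - θ) * a := by ring
        rw [h5, ea, eb]
        linarith
      have h6 := mul_le_mul_of_nonneg_left h4 h3.le
      push_cast
      rw [pow_succ]
      linarith
  refine (key R).trans ?_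
  have h3 : 0 < θ ^ R := pow_pos h0 R
  have h4 : 0 ≤ θ ^ R * (a * R + b) := by positivity
  linarith

theorem log_floor_ge {w : ℝ} (hw : 1 ≤ w) : Real.log w - 1 ≤ Real.log (⌊w⌋₊ : ℝ) := by
  have h1 : (1 : ℝ) ≤ (⌊w⌋₊ : ℝ) := by exact_mod_cast (Nat.one_le_floor_iff w).2 hw
  have h2 : w < ⌊w⌋₊ + 1 := Nat.lt_floor_add_one w
  have h3 : w ≤ 2 * ⌊w⌋₊ := by linarith
  have h4 := Real.log_le_log (by linarith) h3
  rw [Real.log_mul (by norm_num) (by linarith)] at h4
  have h5 : Real.log 2 ≤ 1 := by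
    have := Real.log_two_lt_d9
    linarith
  linarith

/-- the rank of a number `λ` in `(0, L]` -/
noncomputable def rkOf (τ L lam : ℝ) : ℕ := ⌊Real.log (L / lam) / τ⌋₊

theorem rkOf_eq {θ L lam : ℝ} (h0 : 0 < θ) (h1 : θ < 1) (hlam : 0 < lam) (hL : lam ≤ L) {r : ℕ}
    (h : rkOf (-Real.log θ) L lam = r) : θ ^ (r + 1) * L < lam ∧ lam ≤ θ ^ r * L := by
  have hL0 : 0 < L := hlam.trans_le hL
  have hτ : 0 < -Real.log θ := by
    have := Real.log_neg h0 h1
    linarith
  have h2 : 0 ≤ Real.log (L / lam) / -Real.log θ :=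
    div_nonneg (Real.log_nonneg ((one_le_div hlam).2 hL)) hτ.le
  have h3 := (Nat.floor_eq_iff h2).1 h
  obtain ⟨h4, h5⟩ := h3
  rw [le_div_iff₀ hτ] at h4
  rw [div_lt_iff₀ hτ] at h5
  have e1 : Real.log (θ ^ (r + 1)) = ((r : ℝ) + 1) * Real.log θ := by
    rw [Real.log_pow]
    push_cast
    ring
  have e2 : Real.log (θ ^ r) = (r : ℝ) * Real.log θ := by rw [Real.log_pow]
  have e3 : Real.log (L / lam) = Real.log L - Real.log lam := Real.log_div hL0.ne' hlam.ne'
  constructor
  · rw [← Real.log_lt_log_iff (by positivity) hlam, Real.log_mul (by positivity) hL0.ne', e1]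
    linarith
  · rw [← Real.log_le_log_iff hlam (by positivity), Real.log_mul (by positivity) hL0.ne', e2]
    linarith

open Classical in
/-- **the ranks** -/
theorem exists_rank (D : ℕ) (C : ℝ) : ∃ (K Y0 : ℕ) (c : ℝ), 0 ≤ c ∧ ∀ (N : ℕ) (G : Type)
    [AddCommGroup G] (S : Sys N G), S.D = D → (∀ q, Y0 ≤ S.nm q) → S.Mert C → ∀ z : ℕ, 2 ≤ z →
    ∃ (rk : S.Q → ℕ) (R : ℕ), (∀ q ∈ S.le z, rk q < R) ∧
      (R : ℝ) ≤ c * (1 + Real.log (Real.log z + 3)) ∧
      (∀ r, ∑ q ∈ (S.le z).filter (fun q => rk q = r), S.g q ≤ 1 / 16) ∧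
      (∀ q, S.g q ≤ 1 / 2) ∧
      ∀ T : Finset S.Q, T ⊆ S.le z → (∀ r, (T.filter (fun q => rk q = r)).card ≤ 2 * r + 3) →
        ∏ q ∈ T, S.nm q ≤ z ^ K := by
  classical
  set C' : ℝ := max C 1 with hC'
  have hC'1 : 1 ≤ C' := le_max_right _ _
  set B : ℝ := D * C' + 1 with hB
  have hD0 : (0 : ℝ) ≤ D := Nat.cast_nonneg _
  have hDC : 0 ≤ D * C' := by positivity
  have hB1 : 1 ≤ B := by linarith
  set θ : ℝ := 1 - 1 / (64 * B) with hθ
  have hθ1 : θ < 1 := by
    rw [hθ]
    have : 0 < 1 / (64 * B) := by positivity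
    linarith
  have hθ2 : 1 / 2 ≤ θ := by
    rw [hθ]
    have : 1 / (64 * B) ≤ 1 / 64 := by
      apply one_div_le_one_div_of_le (by norm_num)
      linarith
    linarith
  have hθ0 : 0 < θ := by linarith
  set τ : ℝ := -Real.log θ with hτ
  have hτ0 : 0 < τ := by
    have := Real.log_neg hθ0 hθ1
    rw [hτ]
    linarith
  obtain ⟨Y0, hY0⟩ := exists_nat_ge (Real.exp (128 * B) + 2 * D)
  have hY1 : Real.exp (128 * B) ≤ Y0 := by linarith
  have hY2 : (2 * D : ℝ) ≤ Y0 := by
    have := Real.exp_pos (128 * B)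
    linarith
  refine ⟨⌈(3 + 2 / (1 - θ)) / (1 - θ)⌉₊, Y0, 1 / τ + 1, by positivity, ?_⟩
  intro N G _ S hSD hSY hM z hz
  have hz2 : (2 : ℝ) ≤ z := by exact_mod_cast hz
  set L : ℝ := Real.log z with hL
  have hlog2 : (1 : ℝ) / 2 ≤ Real.log 2 := by
    have := Real.log_two_gt_d9
    linarith
  have hLh : 1 / 2 ≤ L := hlog2.trans (Real.log_le_log (by norm_num) hz2)
  have hL0 : 0 < L := by linarith
  -- the norms
  have hnm : ∀ q, (2 : ℝ) ≤ S.nm q := fun q => by exact_mod_cast S.two_le q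
  have hlam : ∀ q, 1 / 2 ≤ Real.log (S.nm q) := fun q =>
    hlog2.trans (Real.log_le_log (by norm_num) (hnm q))
  have hlamY : ∀ q, 128 * B ≤ Real.log (S.nm q) := by
    intro q
    have h1 : Real.exp (128 * B) ≤ S.nm q := hY1.trans (by exact_mod_cast hSY q)
    have h2 := Real.log_le_log (Real.exp_pos _) h1
    rwa [Real.log_exp] at h2
  have hlamL : ∀ q ∈ S.le z, Real.log (S.nm q) ≤ L := by
    intro q hq
    have h1 : (S.nm q : ℝ) ≤ z := by exact_mod_cast S.mem_le.1 hq
    exact Real.log_le_log (by have := hnm q; linarith) h1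
  have hM' : ∀ x y : ℕ, 1 ≤ x → x ≤ y →
      ∑ q ∈ (S.le y).filter (fun q => x < S.nm q), Real.log (S.nm q) / S.nm q ≤
        C' * (Real.log y - Real.log x + 1) := by
    intro x y hx hxy
    refine (hM x y hx hxy).trans (mul_le_mul_of_nonneg_right (le_max_left _ _) ?_)
    have : Real.log x ≤ Real.log y := Real.log_le_log (by exact_mod_cast hx) (by exact_mod_cast hxy)
    linarith
  refine ⟨fun q => rkOf τ L (Real.log (S.nm q)), ⌊Real.log (2 * L + 3) / τ⌋₊ + 1, ?_, ?_, ?_, ?_,
    ?_⟩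
  · intro q hq
    refine Nat.lt_succ_of_le (Nat.floor_le_floor ?_)
    refine div_le_div_of_nonneg_right ?_ hτ0.le
    refine Real.log_le_log (div_pos hL0 (by have := hlam q; linarith)) ?_
    rw [div_le_iff₀ (by have := hlam q; linarith)]
    have h1 := hlam q
    nlinarith
  · have h1 : 0 ≤ Real.log (L + 3) := Real.log_nonneg (by linarith)
    have h2 : Real.log (2 * L + 3) ≤ 1 + Real.log (L + 3) := by
      have h3 : Real.log (2 * L + 3) ≤ Real.log (2 * (L + 3)) :=
        Real.log_le_log (by linarith) (by linarith)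
      rw [Real.log_mul (by norm_num) (by linarith)] at h3
      have h4 := Real.log_two_lt_d9
      linarith
    have h5 : 0 ≤ Real.log (2 * L + 3) / τ :=
      div_nonneg (Real.log_nonneg (by linarith)) hτ0.le
    have h6 := Nat.floor_le h5
    push_cast
    have h7 : Real.log (2 * L + 3) / τ ≤ (1 / τ) * (1 + Real.log (L + 3)) := by
      rw [div_eq_mul_inv, mul_comm, ← one_div]
      exact mul_le_mul_of_nonneg_left h2 (by positivity)
    nlinarith
  · intro r
    rcases ((S.le z).filter (fun q => rkOf τ L (Real.log (S.nm q)) = r)).eq_empty_or_nonempty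
      with hE | ⟨q0, hq0⟩
    · rw [hE, sum_empty]
      norm_num
    · rw [mem_filter] at hq0
      have hr0 := rkOf_eq hθ0 hθ1 (by have := hlam q0; linarith) (hlamL q0 hq0.1) hq0.2
      set u : ℝ := θ ^ r * L with hu
      have hu1 : 128 * B ≤ u := (hlamY q0).trans hr0.2
      have hu0 : 0 < u := by linarith
      have hu2 : θ ^ (r + 1) * L = θ * u := by
        rw [hu, pow_succ]
        ring
      have hθu : 0 < θ * u := by positivity
      set x : ℕ := ⌊Real.exp (θ * u)⌋₊ with hx
      set y : ℕ := ⌊Real.exp u⌋₊ with hy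
      have hex1 : 1 ≤ Real.exp (θ * u) := Real.one_le_exp hθu.le
      have hx1 : 1 ≤ x := (Nat.one_le_floor_iff _).2 hex1
      have hxy : x ≤ y := by
        refine Nat.floor_le_floor (Real.exp_le_exp.2 ?_)
        nlinarith
      have h1 := hM' x y hx1 hxy
      have hly : Real.log y ≤ u := by
        have h2 : (y : ℝ) ≤ Real.exp u := Nat.floor_le (Real.exp_pos _).le
        have h3 : (0 : ℝ) < y := by exact_mod_cast (hx1.trans hxy)
        have h4 := Real.log_le_log h3 h2
        rwa [Real.log_exp] at h4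
      have hlx : θ * u - 1 ≤ Real.log x := by
        have h2 := log_floor_ge hex1
        rwa [Real.log_exp] at h2
      have h2 : ∑ q ∈ (S.le z).filter (fun q => rkOf τ L (Real.log (S.nm q)) = r),
          Real.log (S.nm q) / S.nm q ≤
          ∑ q ∈ (S.le y).filter (fun q => x < S.nm q), Real.log (S.nm q) / S.nm q := by
        refine sum_le_sum_of_subset_of_nonneg ?_ ?_
        · intro q hq
          rw [mem_filter] at hq
          have hr := rkOf_eq hθ0 hθ1 (by have := hlam q; linarith) (hlamL q hq.1) hq.2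
          rw [hu2] at hr
          have hq0 : (0 : ℝ) < S.nm q := by have := hnm q; linarith
          rw [mem_filter, S.mem_le]
          constructor
          · refine Nat.le_floor ?_
            rw [← Real.log_le_iff_le_exp hq0]
            exact hr.2
          · have h3 : Real.exp (θ * u) < S.nm q := by
              rw [← Real.lt_log_iff_exp_lt hq0]
              exact hr.1
            exact (Nat.floor_lt (Real.exp_pos _).le).2 h3
        · intro q _ _
          have := hlam q
          exact div_nonneg (by linarith) (Nat.cast_nonneg _)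
      have h3 : ∀ q ∈ (S.le z).filter (fun q => rkOf τ L (Real.log (S.nm q)) = r),
          S.g q ≤ D / (θ * u) * (Real.log (S.nm q) / S.nm q) := by
        intro q hq
        rw [mem_filter] at hq
        have hr := rkOf_eq hθ0 hθ1 (by have := hlam q; linarith) (hlamL q hq.1) hq.2
        rw [hu2] at hr
        have hq0 : (0 : ℝ) < S.nm q := by have := hnm q; linarith
        refine (S.g_le q).trans ?_
        rw [hSD, div_mul_div_comm, div_le_div_iff₀ hq0 (by positivity)]
        have h4 : (D : ℝ) * (θ * u) ≤ D * Real.log (S.nm q) :=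
          mul_le_mul_of_nonneg_left hr.1.le hD0
        have h5 := mul_le_mul_of_nonneg_right h4 hq0.le
        linarith
      have h4 := (sum_le_sum h3).trans_eq (mul_sum _ _ _).symm
      have h5 : ∑ q ∈ (S.le z).filter (fun q => rkOf τ L (Real.log (S.nm q)) = r), S.g q ≤
          D / (θ * u) * (C' * ((1 - θ) * u + 2)) := by
        refine h4.trans (mul_le_mul_of_nonneg_left ?_ (by positivity))
        refine (h2.trans h1).trans (mul_le_mul_of_nonneg_left ?_ (by linarith))
        linarith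
      refine h5.trans ?_
      rw [div_mul_eq_mul_div, div_le_iff₀ hθu]
      have h6 : (1 - θ) * (64 * B) = 1 := by
        rw [hθ]
        field_simp
        ring
      have h7 : D * (C' * ((1 - θ) * u + 2)) = (D * C') * ((1 - θ) * u + 2) := by ring
      rw [h7]
      have h8 : D * C' ≤ B := by linarith
      have h9 : 0 ≤ (1 - θ) * u + 2 := by
        have : 0 < 1 - θ := by linarith
        positivity
      calc (D * C') * ((1 - θ) * u + 2) ≤ B * ((1 - θ) * u + 2) :=
            mul_le_mul_of_nonneg_right h8 h9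
        _ = ((1 - θ) * (64 * B)) * u / 64 + 2 * B := by ring
        _ = u / 64 + 2 * B := by rw [h6]; ring
        _ ≤ 1 / 16 * (θ * u) := by nlinarith
  · intro q
    refine (S.g_le q).trans ?_
    rw [hSD]
    have h1 : (2 * D : ℝ) ≤ S.nm q := hY2.trans (by exact_mod_cast hSY q)
    rw [div_le_iff₀ (by have := hnm q; linarith)]
    linarith
  · intro T hT hc
    -- logarithms
    have hzpos : (0 : ℝ) < z := by linarith
    have hpos : ∀ q ∈ T, (S.nm q : ℝ) ≠ 0 := fun q _ => by have := hnm q; linarith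
    set K : ℕ := ⌈(3 + 2 / (1 - θ)) / (1 - θ)⌉₊ with hK
    have h1 : Real.log ((∏ q ∈ T, S.nm q : ℕ) : ℝ) ≤ Real.log ((z ^ K : ℕ) : ℝ) := by
      push_cast
      rw [Real.log_prod (fun q hq => hpos q hq), Real.log_pow, ← hL]
      set R : ℕ := ⌊Real.log (2 * L + 3) / τ⌋₊ + 1 with hR
      have hmap : ∀ q ∈ T, rkOf τ L (Real.log (S.nm q)) ∈ range R := by
        intro q hq
        rw [mem_range]
        refine Nat.lt_succ_of_le (Nat.floor_le_floor ?_)
        refine div_le_div_of_nonneg_right ?_ hτ0.le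
        refine Real.log_le_log (div_pos hL0 (by have := hlam q; linarith)) ?_
        rw [div_le_iff₀ (by have := hlam q; linarith)]
        have h1 := hlam q
        nlinarith
      rw [← sum_fiberwise_of_maps_to hmap]
      have h2 : ∀ r ∈ range R, ∑ q ∈ T with rkOf τ L (Real.log (S.nm q)) = r,
          Real.log (S.nm q) ≤ L * ((2 * (r : ℝ) + 3) * θ ^ r) := by
        intro r _
        have h3 : ∀ q ∈ T.filter (fun q => rkOf τ L (Real.log (S.nm q)) = r),
            Real.log (S.nm q) ≤ θ ^ r * L := by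
          intro q hq
          rw [mem_filter] at hq
          exact (rkOf_eq hθ0 hθ1 (by have := hlam q; linarith) (hlamL q (hT hq.1)) hq.2).2
        refine (sum_le_card_nsmul _ _ _ h3).trans ?_
        rw [nsmul_eq_mul]
        have h4 : (((T.filter (fun q => rkOf τ L (Real.log (S.nm q)) = r)).card : ℕ) : ℝ) ≤
            2 * (r : ℝ) + 3 := by exact_mod_cast hc r
        have h5 : 0 ≤ θ ^ r * L := by positivity
        calc _ ≤ (2 * (r : ℝ) + 3) * (θ ^ r * L) := mul_le_mul_of_nonneg_right h4 h5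
          _ = _ := by ring
      refine (sum_le_sum h2).trans ?_
      rw [← mul_sum, mul_comm]
      refine mul_le_mul_of_nonneg_right ?_ hL0.le
      exact (sum_le_geom hθ0 hθ1 R).trans (Nat.le_ceil _)
    have h2 : ((∏ q ∈ T, S.nm q : ℕ) : ℝ) ≤ ((z ^ K : ℕ) : ℝ) := by
      refine (Real.log_le_log_iff ?_ ?_).1 h1
      · push_cast
        exact prod_pos (fun q hq => by have := hnm q; linarith)
      · push_cast
        positivity
    exact_mod_cast h2

/-- few ranks -/
theorem exists_z1 (c : ℝ) (hc : 0 ≤ c) (N : ℕ) : ∃ z1 : ℕ, 2 ≤ z1 ∧ ∀ z : ℕ, z1 ≤ z → ∀ R : ℕ,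
    (R : ℝ) ≤ c * (1 + Real.log (Real.log z + 3)) →
      Real.exp (3 / 16 * R) * (2 ^ (N + 1) / z) ≤ 1 / 8 := by
  have hlog : Filter.Tendsto (fun z : ℕ => Real.log (z : ℝ)) Filter.atTop Filter.atTop :=
    Real.tendsto_log_atTop.comp tendsto_natCast_atTop_atTop
  have h1 : ∀ᶠ L : ℝ in Filter.atTop, Real.log (L + 3) ≤ 1 / (8 * (c + 1)) * (L + 3) := by
    have h2 := Real.isLittleO_log_id_atTop.def (show (0 : ℝ) < 1 / (8 * (c + 1)) by positivity)
    have h3 : Filter.Tendsto (fun L : ℝ => L + 3) Filter.atTop Filter.atTop :=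
      Filter.tendsto_atTop_add_const_right _ _ Filter.tendsto_id
    filter_upwards [h3.eventually h2, Filter.eventually_ge_atTop 0] with L hL hL0
    rw [Real.norm_eq_abs, Real.norm_eq_abs, id, abs_of_nonneg (by linarith : (0:ℝ) ≤ L + 3)] at hL
    exact (le_abs_self _).trans hL
  have h2 : ∀ᶠ z : ℕ in Filter.atTop,
      Real.log (Real.log z + 3) ≤ 1 / (8 * (c + 1)) * (Real.log z + 3) ∧
      c + 1 + 4 * ((N + 4 : ℕ) : ℝ) ≤ Real.log z / 8 ∧ 2 ≤ z := by
    refine (hlog.eventually h1).and (Filter.Eventually.and ?_ (Filter.eventually_ge_atTop 2))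
    filter_upwards [hlog.eventually_ge_atTop (8 * (c + 1 + 4 * ((N + 4 : ℕ) : ℝ)))] with z hz
    linarith
  obtain ⟨z1, hz1⟩ := Filter.eventually_atTop.1 h2
  refine ⟨max z1 2, le_max_right _ _, fun z hz R hR => ?_⟩
  obtain ⟨a1, a2, a3⟩ := hz1 z ((le_max_left _ _).trans hz)
  set L := Real.log z with hL
  have hz0 : (0 : ℝ) < z := by
    have : 2 ≤ z := a3
    positivity
  have hzL : (z : ℝ) = Real.exp L := (Real.exp_log hz0).symm
  have hN4 : (0 : ℝ) ≤ ((N + 4 : ℕ) : ℝ) := Nat.cast_nonneg _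
  have hL0 : 0 ≤ L := by linarith
  have b1 : c * Real.log (L + 3) ≤ (L + 3) / 8 := by
    have h3 := mul_le_mul_of_nonneg_left a1 hc
    have h4 : c * (1 / (8 * (c + 1)) * (L + 3)) ≤ (L + 3) / 8 := by
      have h5 : c / (c + 1) ≤ 1 := by
        rw [div_le_one (by linarith)]
        linarith
      calc c * (1 / (8 * (c + 1)) * (L + 3)) = c / (c + 1) * ((L + 3) / 8) := by
            field_simp
        _ ≤ 1 * ((L + 3) / 8) := mul_le_mul_of_nonneg_right h5 (by linarith)
        _ = _ := one_mul _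
    linarith
  have b2 : (3 / 16 : ℝ) * R ≤ L / 2 := by
    have h3 : (R : ℝ) ≤ c + (L + 3) / 8 := by linarith
    linarith
  have b3 : (2 : ℝ) ^ (N + 4) ≤ Real.exp (L / 2) := by
    have h3 : (2 : ℝ) ≤ Real.exp 1 := by
      have := Real.exp_one_gt_d9
      linarith
    calc (2 : ℝ) ^ (N + 4) ≤ (Real.exp 1) ^ (N + 4) := pow_le_pow_left₀ (by norm_num) h3 _
      _ = Real.exp ((N + 4 : ℕ) : ℝ) := by rw [← Real.exp_nat_mul, mul_one]
      _ ≤ Real.exp (L / 2) := Real.exp_le_exp.2 (by linarith)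
  have b4 : Real.exp (3 / 16 * R) ≤ Real.exp (L / 2) := Real.exp_le_exp.2 b2
  have b5 : Real.exp (L / 2) * Real.exp (L / 2) = z := by
    rw [← Real.exp_add, hzL]
    congr 1
    ring
  rw [mul_div_assoc', div_le_iff₀ hz0]
  calc Real.exp (3 / 16 * R) * 2 ^ (N + 1) ≤ Real.exp (L / 2) * 2 ^ (N + 1) :=
        mul_le_mul_of_nonneg_right b4 (by positivity)
    _ = 1 / 8 * (Real.exp (L / 2) * 2 ^ (N + 4)) := by
        rw [pow_succ 2 (N + 3), pow_succ 2 (N + 2), pow_succ 2 (N + 1)]
        ring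
    _ ≤ 1 / 8 * (Real.exp (L / 2) * Real.exp (L / 2)) :=
        mul_le_mul_of_nonneg_left (mul_le_mul_of_nonneg_left b3 (Real.exp_pos _).le) (by norm_num)
    _ = 1 / 8 * z := by rw [b5]

end Pool.Agent.Helper30.CB
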